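import Pool.Agent.U463.AH.Disc

/-!
MP_6f117a_ag, Q1, for the projective varieties of the vectors whose `m`-th powers, for instance
whose squares, are the values of a polynomial of degree at most `n` at `N + 1` given constants
(`n` and `m` arbitrary, `N` large in terms of `n`), for their closed subvarieties, and modulo
closed sets.

`PowVal a n m` is (the cone over) the variety `X` of the points `x` such that there is a polynomial
`H` of degree at most `n` with `x i ^ m = H (a i)` for all `i`: for distinct `a i` a smooth complete
intersection of dimension `n` of `N - n` Fermat hypersurfaces of degree `m`. `V = {F = 0}` and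
`Z = {G = 0}` are closed subsets of `P^N`; `V` is `X`, or it is contained in `X` and for all points
of `V` outside of `Z` the polynomial `H` is not divisible by the `m`-th power of a polynomial of
degree at least two (`SimpleOff`).

Modulo `Z`: `AlgHypOff`: algebraically hyperbolic; `BoundedOff`: the degrees of the maps from any
given curve are bounded; `GenusOneOff`: no nonconstant maps from curves of genus at most one;
`GmOff`: no nonconstant maps from the multiplicative group; `LineOff`: no lines; `AllSubOff P`: all
the closed subvarieties of positive dimension that are not contained in `Z`, smooth or not, have the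
property `P`. `AlgHypBy B`: algebraically hyperbolic modulo `Z` with the constant `B`.
-/

set_option autoImplicit false

namespace Pool.Agent.Results.MP_6f117a_ag.AllDegreesModuloClosed

open Pool.Agent.W602.GT Pool.Agent.Y190.BV Pool.Agent.Y190.AG Pool.Agent.U463.PG
  Pool.Agent.U463.AH

/-- Let the `a i` be distinct, `m ≥ 2` and `4 n + (n + 1) ^ 2 < 2 (N + 1)`.

First part: for `V` and `Z` as above nine notions of hyperbolicity of `V` modulo `Z` are equivalent,
and if they hold, then `V` is algebraically hyperbolic modulo `Z` with a constant that depends on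
`N`, `n` and the degrees of the equations of `V` only; for `V = X` it is `4 n ^ 3 (n + 1) (N + 1)`.

Second part: the points of `X` whose polynomial has degree less than `n` or a multiple root are the
points of `X` in a hypersurface `Δ = 0`, which does not contain `X`; all closed subsets of `X`, and
`X` itself, are hyperbolic modulo `Δ` in all these senses. -/
theorem result {K : Type} [Field K] [IsAlgClosed K] [CharZero K] {N n m : ℕ} (hm : 2 ≤ m)
    (hN : 4 * n + (n + 1) ^ 2 < 2 * (N + 1)) (a : Fin (N + 1) → K) (ha : Function.Injective a) :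
    (∀ (ι κ : Type) (F : ι → MvPolynomial (Fin (N + 1)) K)
        (G : κ → MvPolynomial (Fin (N + 1)) K), (∀ e, IsForm (F e)) → (∀ e, IsForm (G e)) →
        (Cone F = PowVal a n m ∨ Cone F ⊆ PowVal a n m ∧ SimpleOff a n m F G) →
        [AlgHypOff F G, BoundedOff F G, GenusOneOff F G, GmOff F G, LineOff F G,
          AllSubOff (fun L _ _ w => GeneralType K L w) F G,
          AllSubOff (fun L _ _ w => KodGe K L w (fun _ => False) 0) F G,
          AllSubOff (fun L _ _ w => Psef K L w (fun _ => False)) F G,
          AllSubOff (fun L _ _ _ => ¬ Ruled K L) F G].TFAE ∧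
        (LineOff F G →
          (Cone F = PowVal a n m → AlgHypBy ((N + 1) * (4 * n ^ 3 * (n + 1))) F G) ∧
          ∀ D : ℕ, (∀ e, ∃ d ≤ D, (F e).IsHomogeneous d) →
            AlgHypBy ((N + 1) * ((2 * ((D + 1) * (D * (N + 1))) + 1) * (4 * n ^ 3 * (n + 1)))) F
              G)) ∧
    (1 ≤ n → ∃ Δ : MvPolynomial (Fin (N + 1)) K, IsForm Δ ∧
      (∀ x ∈ PowVal a n m, ∀ H : Polynomial K, H.natDegree ≤ n → (∀ i, x i ^ m = H.eval (a i)) →
        (val x Δ ≠ 0 ↔ H.natDegree = n ∧ H.Separable)) ∧
      (∃ x ∈ PowVal a n m, val x Δ ≠ 0) ∧
      ∀ (ι : Type) (F : ι → MvPolynomial (Fin (N + 1)) K), (∀ e, IsForm (F e)) →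
        Cone F ⊆ PowVal a n m →
        AlgHypBy ((N + 1) * (4 * n ^ 3 * (n + 1))) F (fun _ : Unit => Δ) ∧
        BoundedOff F (fun _ : Unit => Δ) ∧ GenusOneOff F (fun _ : Unit => Δ) ∧
        GmOff F (fun _ : Unit => Δ) ∧
        AllSubOff (fun L _ _ w => GeneralType K L w) F (fun _ : Unit => Δ)) := by
  refine ⟨fun ι κ F G hF hG hV => ⟨main hm hN ha hF hG hV, fun h => ⟨fun hX => ?_,
    fun D hD => ?_⟩⟩, fun hn1 => pseudo hm hN hn1 ha⟩
  · rw [← hco_eq]
    exact uniform_all hm (four_lt hN) ha hF hX h
  · have h1 := uniform hm (four_lt hN) ha hV h hD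
    have h2 : cst N n D =
        (N + 1) * ((2 * ((D + 1) * (D * (N + 1))) + 1) * (4 * n ^ 3 * (n + 1))) := by
      unfold cst
      rw [hco_eq]
      ring
    rw [← h2]
    exact h1

end Pool.Agent.Results.MP_6f117a_ag.AllDegreesModuloClosed
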