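import Pool.Agent.U449.BV.TYP
import Pool.Agent.Results.MP_6f117a_ag.AlmostAllMonomials

/-!
# Notions of hyperbolicity for all but few tuples of monomials: a power saving, and mixed polynomials on arbitrary sets

Let `I 1, …, I s` be nonempty sets of variables among `x_0, …, x_n`, and `r = ∑ (|I i| - 1)` (`fdim I`). We consider the tuples of
monomials `a 1, …, a s` of degree `d`, `a i` in the variables from `I i`; there are about `c d ^ r` of them. The starting result
`AlmostAllMonomials` says that the proportion of those with the property `Good` below tends to `1` for `d → ∞`. Here: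

(1) `Good` fails for at most `C d ^ (r - 2 ^ (-r))` of the tuples, for all `d ≥ 1` (`PowerSaving`).

(2) Let `k = r + 1 ≥ 2`, and let the tuples `(d, a)` of all degrees be given by their `k` coordinates: the degree `d`, and the
exponents in `a i` of all the variables from `I i` but one. Let `0 ≤ κ`, `k - 2 ^ (-r) + k κ < δ ≤ k`, let `p` be a large prime, `f(x, y)` ANY
polynomial of bounded degree over the field of `p ^ k` elements with a monomial which contains both variables (for example
`f = x y`), `A`, `B` ARBITRARY subsets of this field with at least `p ^ δ` elements, and `g`, `h` ARBITRARY functions. For all the pairs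
`(u, v)` in `A × B`, apart from a proportion of at most `p ^ (-ρ)`, `Good` holds for ALL `(d, a)` with all coordinates at a distance of at
most `p ^ κ` from the least residues of the `k` coordinates of `f(u, v) + g(u) + h(v)`. More generally, this holds for the values of
all vector functions of two variables with few coincidences (`RareV`), on arbitrary finite sets.

`Good`: the notions of hyperbolicity are equivalent for all the projective varieties given by linear combinations of the monomials and of
the `x_j ^ d`, with the combinatorial criterion of the starting file.

Proof of (1): the tuples are good if certain determinants, which are affine in each of the `r` free exponents, are not small; the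
number of the lattice points where such a function is small is bounded by induction on the number of the variables, with a power
saving (`Pool/Agent/U449/BV/PW.lean`, `GEN.lean`). Proof of (2): the sets and the functions `g` and `h` are arbitrary, and a vector may be taken
by very many pairs, so the number of the exceptions does not give the result directly; the inequality of Cauchy and Schwarz, and
for most pairs `u, u'` the difference of the values at `(u, v)` and `(u', v)` is small for few `v` (`Pool/Agent/U449/BV/V.lean`).
-/

set_option autoImplicit false

namespace Pool.Agent.Results.MP_6f117a_ag.MonomialsPowerSaving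

open FF MvPolynomial Pool.Agent.W602.GT Pool.Agent.R869.Wd
open Pool.Agent.W603.LV (canDeg)
open Pool.Agent.W603.PV (pht)
open Pool.Agent.W603.CX (AlgHyperbolic BoundedOnCurves OrbitsConstant)
open Pool.Agent.Results.MP_6f117a_ag.AlmostAllMonomials
open Pool.Agent.U449.BV (RareV OnProductsV coordinates PowerSaving NearTuples on_typI)

/-- The property of the starting result: there is a constant `A` such that, over all algebraically closed fields of characteristic
zero, for all projective varieties given by `m` linear combinations of the monomials `a i` and of the `x_j ^ d` the notions of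
hyperbolicity in `Equivalent` are equivalent, and they hold if the coefficient vectors are in general position and the `I i` are
well spread; for hypersurfaces, `LooseCriterion`. -/
def Good {n s : ℕ} (I : Fin s → Finset (Fin (n + 1))) (d : ℕ) (a : Fin s → (Fin (n + 1) →₀ ℕ)) : Prop :=
  ∃ A : ℕ, ∀ (k : Type) [Field k] [IsAlgClosed k] [CharZero k],
    (∀ (m : ℕ) (F : Fin m → MvPolynomial (Fin (n + 1)) k),
      (∀ e, (F e).support ⊆ withPowers d a) → Equivalent A F ∧
        (GenCoeffs F (withPowers d a) → (∀ J, Spread I m J) → AlgHyperbolic A F ∧ AllGeneralType F)) ∧
    ∀ F : MvPolynomial (Fin (n + 1)) k, F.support ⊆ withPowers d a → LooseCriterion A F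

theorem good_of_typ {n s : ℕ} {I : Fin s → Finset (Fin (n + 1))} {d : ℕ} {a : Fin s → (Fin (n + 1) →₀ ℕ)}
    (hty : TypI I d a) : Good I d a := by
  classical
  obtain ⟨s', N, hg⟩ := hty.good
  obtain ⟨A, hA⟩ := hg.unif
  refine ⟨A, fun k _ _ _ => ⟨fun m F hFT => ⟨six (hg.sys hFT ∅) (hA k (Fin m) F hFT ∅), fun hgc hsp => ?_⟩,
    fun F hF => ⟨(hty.loose_general hF).symm, fun J hJ =>
      hty.critHgt hF (hA k (Fin 1) (fun _ => F) (fun _ => hF) ∅) hJ⟩⟩⟩
  have h1 := hty.all hFT hgc hsp
  exact ⟨((six (hg.sys hFT ∅) (hA k (Fin m) F hFT ∅)).out 0 5).2 h1, h1⟩

/-- **Theorem.** (1) For all nonempty sets `I i` of variables the property `Good` holds for all but at most `C d ^ (r - 2 ^ (-r))` of the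
tuples of monomials of degree `d`, the `i`-th one in the variables from `I i`, `r = ∑ (|I i| - 1)`. (2) If `r ≥ 1`, it holds for all
the tuples near almost all values of vector functions of two variables with few coincidences on arbitrary sets
(`OnProductsV`). The tuples of the least residues modulo `p` of the coordinates (with respect to a basis over the field of `p`
elements) of `f(a, b) + g(a) + h(b)` in a field of `p ^ k` elements are such a function, with `X = p`, for all polynomials `f` over
this field with a monomial which contains both variables, arbitrary functions `g` and `h`, and arbitrary finite subsets. -/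
theorem result :
    (∀ (n s : ℕ) (I : Fin s → Finset (Fin (n + 1))), (∀ i, (I i).Nonempty) → PowerSaving I (Good I) ∧
      (1 ≤ fdim I → ∀ piv : Fin s → Fin (n + 1), (∀ i, piv i ∈ I i) →
        ∀ (e : Option (Free I piv) ≃ Fin (fdim I + 1)) (κ : ℝ), 0 ≤ κ →
          OnProductsV (fdim I + 1) ((fdim I : ℝ) + 1 - (1 / 2) ^ fdim I + ((fdim I : ℝ) + 1) * κ) κ
            (NearTuples I piv e (Good I)))) ∧
    ∀ (p : ℕ) [Fact p.Prime] (k : ℕ) (K : Type) [Field K] [Algebra (ZMod p) K] (e : Module.Basis (Fin k) (ZMod p) K)
      (d : ℕ) (f : MvPolynomial (Fin 2) K), f.totalDegree ≤ d → (∃ m ∈ f.support, m 0 ≠ 0 ∧ m 1 ≠ 0) →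
      ∀ (g h : K → K) (A B : Finset K),
        RareV d A B (fun a b i => (((e.repr (MvPolynomial.eval ![a, b] f + g a + h b) i).val : ℕ) : ℝ)) :=
  ⟨fun _ _ _ hI => on_typI hI fun _ _ h => good_of_typ h, coordinates⟩

end Pool.Agent.Results.MP_6f117a_ag.MonomialsPowerSaving
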