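import Pool.Agent.U207.QH.Sum

/-!
# The algebraic notions of hyperbolicity: intersections of quadrics suffice

(1) Let `X = V(S)` be any projective variety in `P^n`, `n ≥ 1` (any dimension and any singularities),
given by forms of degree at most `d`, `d ≥ 3`, and `v : P^n → P^N` the Veronese embedding of degree `d`.
For all `c ≥ (2 (N + 1)^3 + 6 N + 5)^2` there are quadratic forms `P_i` and linear forms `ℓ_i`, `i < c`,
such that the covering of `P^N` with group `(ℤ/2)^c`

`Y : x_i^2 = P_i(h_0, …, h_N), i < c`, in `P^{N+c}`,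

is a smooth complete intersection of `c` quadrics, `P_i = ℓ_i^2` on `v(X)`, so that `Y` contains the
`2^c` copies `x_i = ± ℓ_i(h)`, `h ∈ v(X)`, of `X`. For some number `A`, every morphism from a smooth
projective curve of genus `g` to `Y` has degree at most `A max (2 g - 2, 0)` or has its image in one of
these copies; and every closed subvariety of `Y` of positive dimension is of general type or contained
in one of the copies. So each of the four properties (algebraically hyperbolic, bounded, groupless, all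
subvarieties of general type) holds for `Y` if and only if it holds for `X`, also in the versions
outside of closed subsets.

(2) Let `E N` be infinite sets of numbers. The equivalence of the four properties for all projective
varieties over `ℂ` (smooth or not) is equivalent to their equivalence for these smooth `Y`, `c ∈ E N`.
The same holds for the equivalence in the version outside of closed subsets.

A projective variety over `ℂ` is groupless if and only if all holomorphic maps from complex tori to it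
are constant; it is bounded if and only if the degrees of the maps from each curve are bounded.

Proof. See `Pool/Agent/U207/QC` and `Pool/Agent/U207/QH`. `v(X)` is given by quadratic forms whose
Jacobian matrix has large rank, `P_i = (∑_j a_i^j h_j)^2 + ∑_t a_i^{B + κ t} Q_t(h)`, where the `Q_t` are
generic combinations of these forms and the `a_i` are generic numbers. `P_i(h)` is the value at the
node `a_i` of a polynomial `F_h` in one variable with coefficients depending on `h`. Along an algebraic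
curve of genus `g`, the method of Büchi's problem (Vojta, Pasten) shows that `F_h = q^2 H`, where the
ratios of the values of `H` have degree at most a constant times `max (2 g - 2, 0)`. An argument with the
derivative shows that the `h_i / h_0` are algebraic over the field generated by these ratios unless all
`Q_t(h)` are zero, and Noetherian induction gives the bound for their degrees, uniformly for all curves.
-/

set_option autoImplicit false

namespace Pool.Agent.Results.MP_6f117a_ag.QuadricCoversSuffice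

open MvPolynomial FF
open Pool.Agent.W602.GT (SubVar GeneralType)
open Pool.Agent.W603.LV (canDeg)
open Pool.Agent.W603.PV (pht)
open Pool.Agent.N254.SQ (IsForm OnAlgebraic OnBounded OnTori OnSpecial Monomials veronese)
open Pool.Agent.U207.QC (hI xI coverForm coverEqs SmoothCover Signs onSheet)

/-- the four properties are equivalent for `V(S)` -/
def FourNotions {n : ℕ} (S : Set (MvPolynomial (Fin (n + 1)) ℂ)) : Prop :=
  [OnAlgebraic S 1, OnBounded S 1, OnTori S 1, OnSpecial S 1].TFAE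

/-- the four properties are equivalent for `V(S)` outside of all hypersurfaces -/
def FourSets {n : ℕ} (S : Set (MvPolynomial (Fin (n + 1)) ℂ)) : Prop :=
  ∀ G, IsForm G → [OnAlgebraic S G, OnBounded S G, OnTori S G, OnSpecial S G].TFAE

section proof

open Pool.Agent.U207.QC (OnTor TorusLattice onTori_iff exists_root ForC covEqs_form)
open Pool.Agent.U207.QH

theorem tfae_iff {a b c e a' b' c' e' : Prop}
    (h : (a ↔ a') ∧ (b ↔ b') ∧ (c ↔ c') ∧ (e ↔ e')) :
    [a, b, c, e].TFAE ↔ [a', b', c', e'].TFAE := by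
  obtain ⟨h1, h2, h3, h4⟩ := h
  rw [h1, h2, h3, h4]

theorem clA_tori : ClA (fun _ S G => OnTori S G) := by
  have h := clA_tor TorusLattice
  simp only [onTori_iff] at h
  exact h

variable {n N d c : ℕ} {m : Fin (N + 1) → Fin (n + 1) → ℕ}
  {S : Set (MvPolynomial (Fin (n + 1)) ℂ)} {P ℓ : Fin c → MvPolynomial (Fin (N + 1)) ℂ}

theorem notions_iff (hg : GoodA n N d c m S P ℓ) : FourNotions (coverEqs P) ↔ FourNotions S :=
  tfae_iff ⟨clA_algebraic.one hg, clA_bounded.one hg, clA_tori.one hg, clA_special.one hg⟩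

/-- the four transfers -/
theorem four_iff (hg : GoodA n N d c m S P ℓ) {G : MvPolynomial (Fin (N + c + 1)) ℂ}
    (hG : IsForm G) :
    (OnAlgebraic (coverEqs P) G ↔ ∀ ℓ', Signs ℓ ℓ' → OnAlgebraic S (onSheet m ℓ' G)) ∧
    (OnBounded (coverEqs P) G ↔ ∀ ℓ', Signs ℓ ℓ' → OnBounded S (onSheet m ℓ' G)) ∧
    (OnTori (coverEqs P) G ↔ ∀ ℓ', Signs ℓ ℓ' → OnTori S (onSheet m ℓ' G)) ∧
    (OnSpecial (coverEqs P) G ↔ ∀ ℓ', Signs ℓ ℓ' → OnSpecial S (onSheet m ℓ' G)) :=
  ⟨clA_algebraic.tr n N d c m S P ℓ hg G hG, clA_bounded.tr n N d c m S P ℓ hg G hG,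
    clA_tori.tr n N d c m S P ℓ hg G hG, clA_special.tr n N d c m S P ℓ hg G hG⟩

theorem sheet_form (hg : GoodA n N d c m S P ℓ) {ℓ' : Fin c → MvPolynomial (Fin (N + 1)) ℂ}
    (hl : Signs ℓ ℓ') {G : MvPolynomial (Fin (N + c + 1)) ℂ} (hG : IsForm G) :
    IsForm (onSheet m ℓ' G) := by
  obtain ⟨e, he⟩ := hG
  exact ⟨_, Pool.Agent.N254.SQ.pull_hom hg.toC.mon
    (Pool.Agent.U207.QC.sbl_form (hl.hom hg.toC.homL) he)⟩

theorem sets_down (hg : GoodA n N d c m S P ℓ) (h : FourSets (coverEqs P)) : FourSets S := by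
  intro G hG
  obtain ⟨G₀, hG₀, hp⟩ := exists_root hg.toC.mon hG
  refine (tfae_iff ⟨clA_algebraic.base hg hG hG₀ hp, clA_bounded.base hg hG hG₀ hp,
    clA_tori.base hg hG hG₀ hp, clA_special.base hg hG hG₀ hp⟩).1 (h _ ?_)
  obtain ⟨e, he⟩ := hG₀
  exact ⟨e, he.rename_isHomogeneous⟩

theorem sets_iff (hg : GoodA n N d c m S P ℓ) : FourSets (coverEqs P) ↔ FourSets S := by
  refine ⟨sets_down hg, fun h G hG => ?_⟩
  obtain ⟨h1, h2, h3, h4⟩ := four_iff hg hG
  have key : ∀ {ℓ'}, Signs ℓ ℓ' → [OnAlgebraic S (onSheet m ℓ' G), OnBounded S (onSheet m ℓ' G),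
      OnTori S (onSheet m ℓ' G), OnSpecial S (onSheet m ℓ' G)].TFAE := fun hl =>
    h _ (sheet_form hg hl hG)
  rw [h1, h2, h3, h4]
  tfae_have 1 → 2 := fun h5 ℓ' hl => ((key hl).out 0 1).1 (h5 ℓ' hl)
  tfae_have 2 → 3 := fun h5 ℓ' hl => ((key hl).out 1 2).1 (h5 ℓ' hl)
  tfae_have 3 → 4 := fun h5 ℓ' hl => ((key hl).out 2 3).1 (h5 ℓ' hl)
  tfae_have 4 → 1 := fun h5 ℓ' hl => ((key hl).out 3 0).1 (h5 ℓ' hl)
  tfae_finish

theorem four_zero {S : Set (MvPolynomial (Fin (0 + 1)) ℂ)} (hS : ∀ p ∈ S, IsForm p)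
    {G : MvPolynomial (Fin (0 + 1)) ℂ} (hG : IsForm G) :
    [OnAlgebraic S G, OnBounded S G, OnTori S G, OnSpecial S G].TFAE := by
  have h1 := clA_algebraic.zero S G hS hG
  have h2 := clA_bounded.zero S G hS hG
  have h3 := clA_tori.zero S G hS hG
  have h4 := clA_special.zero S G hS hG
  simp only [h1, h2, h3, h4]
  tfae_have 1 ↔ 1 := Iff.rfl
  tfae_finish

theorem four_congr {n : ℕ} {S S' : Set (MvPolynomial (Fin (n + 1)) ℂ)}
    (h : ∀ (L : Type) [Field L] [Algebra ℂ L] (x : Fin (n + 1) → L),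
      (∀ p ∈ S, aeval x p = 0) ↔ ∀ p ∈ S', aeval x p = 0)
    (G : MvPolynomial (Fin (n + 1)) ℂ) :
    (OnAlgebraic S G ↔ OnAlgebraic S' G) ∧ (OnBounded S G ↔ OnBounded S' G) ∧
      (OnTori S G ↔ OnTori S' G) ∧ (OnSpecial S G ↔ OnSpecial S' G) := by
  have h' : ∀ (L : Type) [Field L] [Algebra ℂ L] (x : Fin (n + 1) → L),
      (∀ p ∈ S', aeval x p = 0) ↔ ∀ p ∈ S, aeval x p = 0 := fun L _ _ x => (h L x).symm
  exact ⟨⟨clA_algebraic.congr n S S' h G, clA_algebraic.congr n S' S h' G⟩,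
    ⟨clA_bounded.congr n S S' h G, clA_bounded.congr n S' S h' G⟩,
    ⟨clA_tori.congr n S S' h G, clA_tori.congr n S' S h' G⟩,
    ⟨clA_special.congr n S S' h G, clA_special.congr n S' S h' G⟩⟩

end proof

theorem result :
    (∀ n d : ℕ, 1 ≤ n → 3 ≤ d → ∃ (N : ℕ) (m : Fin (N + 1) → Fin (n + 1) → ℕ),
      Monomials n N d m ∧ ∀ c, (2 * (N + 1) ^ 3 + 6 * N + 5) ^ 2 ≤ c →
        ∀ S : Set (MvPolynomial (Fin (n + 1)) ℂ), (∀ p ∈ S, ∃ e ≤ d, p.IsHomogeneous e) →
        ∃ P ℓ : Fin c → MvPolynomial (Fin (N + 1)) ℂ,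
          (∀ i, (P i).IsHomogeneous 2) ∧ (∀ i, (ℓ i).IsHomogeneous 1) ∧ SmoothCover P ∧
          (∀ x : Fin (n + 1) → ℂ, (∀ p ∈ S, eval x p = 0) →
            ∀ i, eval (veronese m x) (P i) = eval (veronese m x) (ℓ i) ^ 2) ∧
          (∃ A : ℕ, ∀ (E : Type) [Field E] [Algebra ℂ E] [IsFF ℂ E] (y : Fin (N + c + 1) → E),
            y ≠ 0 → (∀ i, aeval y (coverForm P i) = 0) →
            pht ℂ y ≤ A * max (canDeg ℂ E) 0 ∨
              ∃ (ℓ' : Fin c → MvPolynomial (Fin (N + 1)) ℂ) (x : Fin (n + 1) → E) (c₀ : E),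
                Signs ℓ ℓ' ∧ x ≠ 0 ∧ c₀ ≠ 0 ∧ (∀ p ∈ S, aeval x p = 0) ∧
                y ∘ hI N c = c₀ • veronese m x ∧
                ∀ i, y (xI N c i) = c₀ * aeval (veronese m x) (ℓ' i)) ∧
          (∀ (L : Type) [Field L] [Algebra ℂ L] (w : ℕ) (y : Fin (N + c + 1) → L), 1 ≤ w →
            SubVar (coverForm P) L w y → GeneralType ℂ L w ∨
              ∃ (ℓ' : Fin c → MvPolynomial (Fin (N + 1)) ℂ) (x : Fin (n + 1) → L) (c₀ : L),
                Signs ℓ ℓ' ∧ x ≠ 0 ∧ c₀ ≠ 0 ∧ (∀ p ∈ S, aeval x p = 0) ∧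
                y ∘ hI N c = c₀ • veronese m x ∧
                ∀ i, y (xI N c i) = c₀ * aeval (veronese m x) (ℓ' i)) ∧
          (∀ G, IsForm G →
            (OnAlgebraic (coverEqs P) G ↔ ∀ ℓ', Signs ℓ ℓ' → OnAlgebraic S (onSheet m ℓ' G)) ∧
            (OnBounded (coverEqs P) G ↔ ∀ ℓ', Signs ℓ ℓ' → OnBounded S (onSheet m ℓ' G)) ∧
            (OnTori (coverEqs P) G ↔ ∀ ℓ', Signs ℓ ℓ' → OnTori S (onSheet m ℓ' G)) ∧
            (OnSpecial (coverEqs P) G ↔ ∀ ℓ', Signs ℓ ℓ' → OnSpecial S (onSheet m ℓ' G))) ∧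
          (FourNotions (coverEqs P) ↔ FourNotions S) ∧ (FourSets (coverEqs P) ↔ FourSets S)) ∧
    ∀ E : ℕ → Set ℕ, (∀ N, (E N).Infinite) →
      ((∀ (n : ℕ) (S : Set (MvPolynomial (Fin (n + 1)) ℂ)), (∀ p ∈ S, IsForm p) →
          FourNotions S) ↔
        ∀ (N c : ℕ) (P : Fin c → MvPolynomial (Fin (N + 1)) ℂ), c ∈ E N →
          (∀ i, (P i).IsHomogeneous 2) → SmoothCover P → FourNotions (coverEqs P)) ∧
      ((∀ (n : ℕ) (S : Set (MvPolynomial (Fin (n + 1)) ℂ)), (∀ p ∈ S, IsForm p) →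
          FourSets S) ↔
        ∀ (N c : ℕ) (P : Fin c → MvPolynomial (Fin (N + 1)) ℂ), c ∈ E N →
          (∀ i, (P i).IsHomogeneous 2) → SmoothCover P → FourSets (coverEqs P)) := by
  refine ⟨?_, fun E hE => ⟨⟨fun h N c P _ hP _ => ?_, fun h => ?_⟩,
    ⟨fun h N c P _ hP _ => ?_, fun h => ?_⟩⟩⟩
  · intro n d hn hd
    obtain ⟨N, m, hm, -, h⟩ := Pool.Agent.U207.QH.consA n d hn hd
    refine ⟨N, m, ⟨hm.deg, hm.inj, hm.surj⟩, fun c hc S hS => ?_⟩
    obtain ⟨P, ℓ, hsm, hg⟩ := h c hc S hS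
    exact ⟨P, ℓ, hg.toC.homP, hg.toC.homL, hsm, fun x hx i => hg.toC.sub ℂ x hx i,
      Pool.Agent.U207.QH.alg_sheet hg, Pool.Agent.U207.QH.sub_sheet hg.toC,
      fun G hG => four_iff hg hG, notions_iff hg, sets_iff hg⟩
  · exact h (N + c) _ (Pool.Agent.U207.QC.covEqs_form hP)
  · exact Pool.Agent.U207.QH.all_ofA hE (W := fun _ S => FourNotions S)
      (fun S hS => four_zero hS ⟨0, isHomogeneous_one _ _⟩)
      (fun n S S' hSS => (tfae_iff (four_congr hSS 1)).1)
      (fun n N d c m S P ℓ hg => (notions_iff hg).1) h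
  · exact h (N + c) _ (Pool.Agent.U207.QC.covEqs_form hP)
  · exact Pool.Agent.U207.QH.all_ofA hE (W := fun _ S => FourSets S)
      (fun S hS G hG => four_zero hS hG)
      (fun n S S' hSS hT G hG => (tfae_iff (four_congr hSS G)).1 (hT G hG))
      (fun n N d c m S P ℓ hg => sets_down hg) h

end Pool.Agent.Results.MP_6f117a_ag.QuadricCoversSuffice
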