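import Pool.Agent.Q96.HE.Main

/-!
# Algebraic hyperbolicity of surfaces with orbifold contact over a surface over a torus

For projective surfaces it is known that the properties (2), (3) and (4) of the problem are
equivalent; whether they imply (1), algebraic hyperbolicity, is not known. Here this is proved for a
class of (quasi-)projective surfaces.

**The base.** `X` is a projective surface, with generic point `a` and function field `K`,
`f 0, …, f n` are forms of the same degree which do not vanish on `X`, and
`x ↦ (f 0 (x) : … : f n (x))` is generically finite on `X`. `Q` is a polynomial, and
`Q (1, f 1 / f 0, …, f n / f 0)` is not zero on `X`. The hypothesis `IsOrbPair` is that the pair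
which consists of `X` and of the boundary of the prime divisors (on all models) at which some
`f i / f 0` is not a unit, or at which `Q (1, f 1 / f 0, …)` vanishes to order exactly one, is of log
general type. For `Q = 1` only the zeros and poles of the ratios `f i / f 0` are in the boundary.

**The surfaces.** `Y` is any projective surface, with generic point `b`, with a generically finite
dominant rational map `g` to `X` (`IsCover`), and `D` is a closed subset of `Y`; for `D = {1}` it is
empty, and this is the case of the problem. The hypothesis `OrbOff m Q b D` is that all arcs in
`Y - D`, which are not mapped into the zeros of the forms `f i`, either have two orders of contact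
with the forms `f i` which differ by at least `m`, or meet all `f i = 0` with the same order and the
hypersurface `Q = 0` not with order one.

**The theorem.** Let `m` be large, depending only on `X`, the `f i` and `Q`. Then `Y - D` is of log
general type. It is algebraically hyperbolic if and only if `2 g - 2 + s > 0` for all nonconstant
morphisms from smooth projective curves to `Y`, with image not contained in `D` (`g` is the genus and
`s` the number of the points over `D`; for `D` empty this says that there are no rational and no
elliptic curves in `Y`), and if and only if all closed subvarieties of `Y - D` of positive dimension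
are of log general type. In any case there are only finitely many curves with
`2 g - 2 + s ≤ 0` in `Y - D`, and the degrees of all other maps from curves are at most
`A (2 g - 2 + s)`.

This is a theorem of the library (`Pool.Agent.Q96.HE.main`) which no hand-in of the starting
repository uses.
-/

set_option autoImplicit false

namespace Pool.Agent.Results.MP_6f117a_ag.SurfacesOverOrbifolds

open MvPolynomial FF Pool.Agent.W603.LV Pool.Agent.W603.PV Pool.Agent.W602.GT
open Pool.Agent.Q271.RC Pool.Agent.Q96.LS Pool.Agent.Q96.OS Pool.Agent.Q96.HE Pool.Agent.Q186.RU

/-- **Notions of hyperbolicity for surfaces with orbifold contact.** Let `X` (generic point `a`), the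
forms `f 0, …, f n` and `Q` be an orbifold pair of log general type of dimension `d`, `d = 2` (or
`d = 1`). There is a number `m` such that for all generically finite dominant rational maps `g` from
projective varieties `Y` (generic point `b`) to `X` and all closed subsets `D` such that all arcs in
`Y - D` have orbifold contact of order at least `m`:

1. `Y - D` is of log general type;
2. `Y - D` is algebraically hyperbolic if and only if it contains no image of a map from a curve with
   `2 g - 2 + s ≤ 0`, if and only if all its closed subvarieties of positive dimension are of log
   general type;
3. the set of the closed curves in `Y - D` with `2 g - 2 + s ≤ 0` is finite;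
4. for some `A` all nonconstant maps from curves to `Y - D` have degree at most `A (2 g - 2 + s)`, or
   their image is one of the curves in 3. -/
theorem result {N n d : ℕ} {K : Type} [Field K] [Algebra ℂ K] {a : Fin (N + 1) → K}
    {f : Fin (n + 1) → MvPolynomial (Fin (N + 1)) ℂ} {e : ℕ} {Q : MvPolynomial (Fin (n + 1)) ℂ}
    (hd : 0 < d) (hd2 : d ≤ 2) (hX : IsOrbPair d a f e Q) :
    ∃ m : ℕ, ∀ (N' : ℕ) (K' : Type) [Field K'] [Algebra ℂ K'] [Algebra K K']
      [IsScalarTower ℂ K K'] (b : Fin (N' + 1) → K')
      (g : Fin (N + 1) → MvPolynomial (Fin (N' + 1)) ℂ) (e' : ℕ), IsCover a b g e' →
      ∀ D : Set (MvPolynomial (Fin (N' + 1)) ℂ), (∀ F ∈ D, ∃ E, F.IsHomogeneous E) →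
      OrbOff m Q b D (fun i => bind₁ g (f i)) →
      LogGeneralType ℂ K' d (CentreIn D b) ∧
      ((AlgHyperbolic b D ↔ NoLowMaps b D) ∧ (NoLowMaps b D ↔ Hyperbolic b D)) ∧
      (lowCurves b D).Finite ∧
      ∃ A : ℕ, ∀ (L : Type) [Field L] [Algebra ℂ L] [IsFF ℂ L] (v : Fin (N' + 1) → L),
        IsMap b D v → pht ℂ v ≤ A * eul D v ∨ vanForms v ∈ lowCurves b D :=
  main hd hd2 hX

end Pool.Agent.Results.MP_6f117a_ag.SurfacesOverOrbifolds
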